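import Pool.Agent.helper62.MS.SpecF
import Pool.Agent.helper92.RS.EF1

set_option autoImplicit false

open scoped MatrixGroups ContDiff Topology UpperHalfPlane ComplexConjugate
open UpperHalfPlane MeasureTheory Filter Set

namespace Pool.Agent.MS

open Pool.Agent.RS

/-! ## real analysis -/

theorem MS1_alg (s m S : ℝ) (hs0 : 0 < s) (hs : s ≤ 1 / 160) (hm0 : 0 ≤ m) (hm1 : m ≤ 1) (hS0 : 0 ≤ S)
    (h : (1 - s ^ 2) * S ≤ Real.sqrt (2 * (s ^ 2) ^ 2) + (1 + s ^ 2) * Real.sqrt (1 - m + 5 * s ^ 2)) :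
    S ^ 2 ≤ 1 - m + 80 * s := by
  set u : ℝ := Real.sqrt (1 - m) with hu
  have hu0 : 0 ≤ u := Real.sqrt_nonneg _
  have husq : u ^ 2 = 1 - m := Real.sq_sqrt (by linarith)
  have hu1 : u ≤ 1 := by
    rw [hu]
    exact Real.sqrt_le_one.2 (by linarith)
  have h1 : Real.sqrt (2 * (s ^ 2) ^ 2) ≤ 2 * s ^ 2 := by
    apply Real.sqrt_le_iff.2
    constructor
    · positivity
    · nlinarith [sq_nonneg (s ^ 2)]
  have h2 : Real.sqrt (1 - m + 5 * s ^ 2) ≤ u + 3 * s := by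
    apply Real.sqrt_le_iff.2
    constructor
    · positivity
    · nlinarith [mul_nonneg hu0 hs0.le, sq_nonneg s]
  have h3 : (1 - s ^ 2) * S ≤ 2 * s ^ 2 + (1 + s ^ 2) * (u + 3 * s) := by
    have : (1 + s ^ 2) * Real.sqrt (1 - m + 5 * s ^ 2) ≤ (1 + s ^ 2) * (u + 3 * s) :=
      mul_le_mul_of_nonneg_left h2 (by positivity)
    linarith
  have h4 : S ≤ u + 8 * s := by
    by_contra hc
    have hc' : u + 8 * s < S := not_le.1 hc
    have hs2 : s ^ 2 ≤ s * (1 / 160) := by nlinarith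
    have h5 : (1 - s ^ 2) * (u + 8 * s) < (1 - s ^ 2) * S :=
      mul_lt_mul_of_pos_left hc' (by nlinarith)
    have h6 : s ^ 2 * u ≤ s ^ 2 := mul_le_of_le_one_right (sq_nonneg s) hu1
    have h7 : s ^ 3 ≤ s ^ 2 := by nlinarith [sq_nonneg s]
    nlinarith
  have h8 : S ^ 2 ≤ (u + 8 * s) ^ 2 := pow_le_pow_left₀ hS0 h4 2
  nlinarith [mul_nonneg hu0 hs0.le]

theorem MS1_schur (C1 C2 C3 K δ θ N n r X U L0 : ℝ) (hC1 : 0 < C1) (hC2 : 0 < C2) (hC3 : 1 ≤ C3) (hK : 1 ≤ K)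
    (hδ0 : 0 < δ) (hδ1 : δ ≤ 1) (hθ : δ ≤ θ / 8) (hN1 : 1 ≤ N) (hn : 0 ≤ n) (hN : N ≤ Real.exp (δ * n)) (hr : 0 < r)
    (hn1 : 4 * C1 * C2 * K * C3 / δ * Real.exp (-(3 * θ / 4) * n) ≤ δ ^ 2)
    (hL0 : L0 = 2 * K * (C3 * N * Real.exp n) / δ) (hX : X = r / L0) (hU : U = Real.exp (-n) / X) :
    r ^ 2 * (C1 * N * Real.exp (-(n / 2)) * U * (1 + X * Real.exp n / r)) *
      (C2 * Real.exp (-(θ * n)) * Real.exp (n / 2) / r) ≤ δ ^ 2 := by
  have hE : 0 < Real.exp n := Real.exp_pos n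
  have hN0 : 0 < N := by linarith
  have hK0 : 0 < K := by linarith
  have hC30 : 0 < C3 := by linarith
  have hL00 : 0 < L0 := by rw [hL0]; positivity
  have hX0 : 0 < X := by rw [hX]; positivity
  have e1 : Real.exp (-n) = (Real.exp n)⁻¹ := Real.exp_neg n
  have e2 : r * U = 2 * K * C3 * N / δ := by
    rw [hU, hX, hL0, e1]
    field_simp
  have e3 : X * Real.exp n / r = δ / (2 * K * C3 * N) := by
    rw [hX, hL0]
    field_simp
  have e4 : δ / (2 * K * C3 * N) ≤ 1 := by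
    rw [div_le_one (by positivity)]
    have h1 : 1 ≤ K * C3 := by nlinarith
    have h2 : 1 ≤ K * C3 * N := by nlinarith
    nlinarith
  have e5 : Real.exp (-(n / 2)) * Real.exp (n / 2) = 1 := by
    rw [← Real.exp_add]
    simp
  have e6 : r ^ 2 * (C1 * N * Real.exp (-(n / 2)) * U * (1 + X * Real.exp n / r)) *
      (C2 * Real.exp (-(θ * n)) * Real.exp (n / 2) / r) =
      C1 * C2 * N * (r * U) * (1 + X * Real.exp n / r) * Real.exp (-(θ * n)) * (Real.exp (-(n / 2)) * Real.exp (n / 2)) := by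
    field_simp
  rw [e6, e5, e2, e3, mul_one]
  have e7 : C1 * C2 * N * (2 * K * C3 * N / δ) * (1 + δ / (2 * K * C3 * N)) * Real.exp (-(θ * n)) ≤
      C1 * C2 * N * (2 * K * C3 * N / δ) * 2 * Real.exp (-(θ * n)) := by
    refine mul_le_mul_of_nonneg_right ?_ (Real.exp_pos _).le
    refine mul_le_mul_of_nonneg_left (by linarith) (by positivity)
  refine e7.trans ?_
  have e8 : C1 * C2 * N * (2 * K * C3 * N / δ) * 2 * Real.exp (-(θ * n)) =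
      4 * C1 * C2 * K * C3 / δ * (N ^ 2 * Real.exp (-(θ * n))) := by
    field_simp
    ring
  rw [e8]
  refine le_trans ?_ hn1
  refine mul_le_mul_of_nonneg_left ?_ (by positivity)
  have e9 : N ^ 2 ≤ Real.exp (δ * n) ^ 2 := pow_le_pow_left₀ hN0.le hN 2
  calc N ^ 2 * Real.exp (-(θ * n)) ≤ Real.exp (δ * n) ^ 2 * Real.exp (-(θ * n)) :=
        mul_le_mul_of_nonneg_right e9 (Real.exp_pos _).le
    _ = Real.exp (2 * (δ * n) + -(θ * n)) := by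
        rw [Real.exp_add, two_mul, Real.exp_add, sq]
    _ ≤ Real.exp (-(3 * θ / 4) * n) := by
        apply Real.exp_le_exp.2
        nlinarith

/-! ## the box -/

theorem MS1_conj (s : ℝ) (p : SL(2, ℝ)) :
    (aM s * p * aM (-s) : SL(2, ℝ)).1 0 0 = p.1 0 0 ∧ (aM s * p * aM (-s) : SL(2, ℝ)).1 0 1 = Real.exp s * p.1 0 1 ∧
    (aM s * p * aM (-s) : SL(2, ℝ)).1 1 0 = p.1 1 0 / Real.exp s ∧ (aM s * p * aM (-s) : SL(2, ℝ)).1 1 1 = p.1 1 1 := by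
  have h1 : Real.exp (s / 2) * Real.exp (s / 2) = Real.exp s := by
    rw [← Real.exp_add]
    congr 1
    ring
  have h0 : Real.exp (s / 2) ≠ 0 := (Real.exp_pos _).ne'
  have e1 : Real.exp (-(s / 2)) = (Real.exp (s / 2))⁻¹ := Real.exp_neg _
  have e2 : Real.exp (-s / 2) = (Real.exp (s / 2))⁻¹ := by rw [neg_div, Real.exp_neg]
  have e3 : Real.exp (-(-s / 2)) = Real.exp (s / 2) := by
    congr 1
    ring
  refine ⟨?_, ?_, ?_, ?_⟩
  all_goals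
    simp only [Matrix.SpecialLinearGroup.coe_mul, Matrix.mul_apply, Fin.sum_univ_two, aM, Matrix.of_apply,
      Matrix.cons_val', Matrix.cons_val_zero, Matrix.cons_val_one, Matrix.cons_val_fin_one, mul_zero, zero_mul, add_zero, zero_add]
    (try rw [← h1]) <;> (try rw [e1]) <;> (try rw [e2]) <;> (try rw [e3]) <;> (try field_simp)

theorem MS1_box (a b c s : ℝ) (y g' : SL(2, ℝ)) (γ : SL(2, ℝ)) (h : bq a b c (y⁻¹ * γ * (g' * aM s)))
    (hab : ∀ s t, aM (s + t) = aM s * aM t) :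
    bq a (b * Real.exp s) (c / Real.exp s) ((y * aM (-s))⁻¹ * γ * g') := by
  have h00 : aM 0 = 1 := by
    have h1 := hab 0 0
    rw [add_zero] at h1
    exact (left_eq_mul.1 h1)
  have h01 : aM s * aM (-s) = 1 := by rw [← hab, add_neg_cancel, h00]
  have h02 : aM (-s) * aM s = 1 := by rw [← hab, neg_add_cancel, h00]
  have h03 : (aM (-s))⁻¹ = aM s := inv_eq_of_mul_eq_one_right h02
  have e : (y * aM (-s))⁻¹ * γ * g' = aM s * (y⁻¹ * γ * (g' * aM s)) * aM (-s) := by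
    rw [mul_inv_rev, h03]
    simp only [mul_assoc]
    rw [h01, mul_one]
  rw [e]
  obtain ⟨p1, p2, p3, p4⟩ := MS1_conj s (y⁻¹ * γ * (g' * aM s))
  obtain ⟨q1, q2, q3, q4⟩ := h
  refine ⟨?_, ?_, ?_, ?_⟩
  · rw [p1]
    exact q1
  · rw [p4]
    exact q2
  · rw [p2, abs_mul, abs_of_pos (Real.exp_pos s), mul_comm]
    exact mul_le_mul_of_nonneg_right q3 (Real.exp_pos s).le
  · rw [p3, abs_div, abs_of_pos (Real.exp_pos s)]
    exact div_le_div_of_nonneg_right q4 (Real.exp_pos s).le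

/-! ## the core estimate -/

theorem MS1_core (hAS1 : AS1_stmt) (hFL0 : FL0_stmt) (hGFD : GFD_stmt) (hGBD : GBD_stmt)
    (Γ : Subgroup SL(2, ℝ)) (F : Set ℍ) (hΓ : QU.SurfaceGroup Γ) (hF : QU.NiceDom Γ F) (c c' : ℍ → ℂ) (hc : TB (1 / 4) c) (hc' : TB (1 / 4) c')
    (r δ m t t1 S1 S2 : ℝ) (φ : ℍ → ℂ) (hr : 0 < r) (hδ0 : 0 < δ) (hδ : Real.sqrt δ ≤ 1 / 160) (hφ : EigL Γ (1 / 4 + r ^ 2) φ) (hn : nn F φ = 1)
    (hf : ∀ u : ℍ → ℂ, InvC Γ u → r * qn F c r u ≤ (1 + δ) * nn F u) (hf' : ∀ u : ℍ → ℂ, InvC Γ u → r * qn F c' r u ≤ (1 + δ) * nn F u)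
    (hq : |r * qn F c r φ - 1| ≤ δ) (Ψ : SL(2, ℝ) → ℝ) (hΨ : InvG Γ Ψ) (hΨ1 : ∀ g, 0 ≤ Ψ g ∧ Ψ g ≤ 1)
    (hinv : |r * iR F (fun g => Ψ (g * aM t1) * ‖Wf (pk r c) φ g‖ ^ 2) - r * iR F (fun g => Ψ (g * aM t) * ‖Wf (pk r c) φ g‖ ^ 2)| ≤ δ)
    (hm : 2 * δ ≤ m) (hm1 : m ≤ 1)
    (hyp : (m - 2 * δ) * qn F c r φ < iR F (fun g => Ψ (g * aM t) * ‖Wf (pk r c) φ g‖ ^ 2))
    (D : Set SL(2, ℝ)) (hD : MeasurableSet D) (hDi : ∀ (γ : Γ) (g : SL(2, ℝ)), (γ : SL(2, ℝ)) * g ∈ D ↔ g ∈ D)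
    (hS1 : 0 ≤ S1) (hS2 : 0 ≤ S2)
    (hB1 : ∀ h : SL(2, ℝ), ∫⁻ k in {k | h * k ∈ {g : SL(2, ℝ) | Ψ (g * aM t1) ≠ 0}}, ENNReal.ofReal ‖gk r c' c k‖ ∂mG ≤ ENNReal.ofReal S1)
    (hB2 : ∀ g : SL(2, ℝ), ∫⁻ k in {k | g * k⁻¹ ∈ D}, ENNReal.ofReal ‖gk r c' c k‖ ∂mG ≤ ENNReal.ofReal S2)
    (hS : r ^ 2 * S1 * S2 ≤ δ ^ 2) :
    r * ∫ h in dG F ∩ D, ‖Wf (pk r c') φ h‖ ^ 2 ∂mG ≤ 1 - m + 80 * Real.sqrt δ := by
  set P : SL(2, ℝ) → ℝ := fun g => ‖Wf (pk r c) φ g‖ ^ 2 with hP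
  have hP0 : ∀ g, 0 ≤ P g := fun g => sq_nonneg _
  set B : Set SL(2, ℝ) := {g : SL(2, ℝ) | Ψ (g * aM t1) ≠ 0} with hB
  have hΨc : Continuous fun g : SL(2, ℝ) => Ψ (g * aM t1) := hΨ.1.comp (continuous_mul_const _)
  have hBm : MeasurableSet B := (isOpen_ne_fun hΨc continuous_const).measurableSet
  have hBi : ∀ (γ : Γ) (g : SL(2, ℝ)), (γ : SL(2, ℝ)) * g ∈ B ↔ g ∈ B := by
    intro γ g
    show Ψ ((γ : SL(2, ℝ)) * g * aM t1) ≠ 0 ↔ Ψ (g * aM t1) ≠ 0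
    rw [mul_assoc, hΨ.2]
  have hPint : IntegrableOn P (dG F) mG := EF1_int hGFD hGBD hFL0 r hΓ hF hc (EF1_invC hφ)
  have hsplit : ∫ g in dG F ∩ B, P g ∂mG + ∫ g in dG F \ B, P g ∂mG = qn F c r φ :=
    integral_inter_add_sdiff hBm hPint
  have hle : iR F (fun g => Ψ (g * aM t1) * P g) ≤ ∫ g in dG F ∩ B, P g ∂mG := by
    rw [← setIntegral_indicator hBm]
    refine integral_mono_of_nonneg (Eventually.of_forall fun g => mul_nonneg (hΨ1 _).1 (hP0 g)) (hPint.indicator hBm)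
      (Eventually.of_forall fun g => ?_)
    show Ψ (g * aM t1) * P g ≤ B.indicator P g
    by_cases hg : g ∈ B
    · rw [indicator_of_mem hg]
      exact mul_le_of_le_one_left (hP0 g) (hΨ1 _).2
    · rw [indicator_of_notMem hg]
      have h1 : Ψ (g * aM t1) = 0 := not_not.1 hg
      rw [h1, zero_mul]
  have hIC : 0 ≤ ∫ g in dG F \ B, P g ∂mG := setIntegral_nonneg_of_ae (Eventually.of_forall fun g => hP0 g)
  have hIB : 0 ≤ ∫ g in dG F ∩ B, P g ∂mG := setIntegral_nonneg_of_ae (Eventually.of_forall fun g => hP0 g)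
  have hqq := abs_le.1 hq
  have hδ1 : δ ≤ 1 / 160 ^ 2 := by
    have h1 : Real.sqrt δ ^ 2 = δ := Real.sq_sqrt hδ0.le
    have h2 := pow_le_pow_left₀ (Real.sqrt_nonneg δ) hδ 2
    rw [h1] at h2
    norm_num at h2 ⊢
    exact h2
  have hi := abs_le.1 hinv
  have e1 : m - 4 * δ ≤ r * ∫ g in dG F ∩ B, P g ∂mG := by
    have h1 : r * iR F (fun g => Ψ (g * aM t1) * P g) ≤ r * ∫ g in dG F ∩ B, P g ∂mG := mul_le_mul_of_nonneg_left hle hr.le
    have h2 : r * ((m - 2 * δ) * qn F c r φ) ≤ r * iR F (fun g => Ψ (g * aM t) * P g) := mul_le_mul_of_nonneg_left hyp.le hr.le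
    have h3 : (m - 2 * δ) * (1 - δ) ≤ (m - 2 * δ) * (r * qn F c r φ) := mul_le_mul_of_nonneg_left (by linarith) (by linarith)
    have h4 : (m - 2 * δ) * δ ≤ 1 * δ := mul_le_mul_of_nonneg_right (by linarith) hδ0.le
    nlinarith
  have hsr : r * (∫ g in dG F ∩ B, P g ∂mG) + r * (∫ g in dG F \ B, P g ∂mG) = r * qn F c r φ := by
    rw [← hsplit]
    ring
  have e2 : r * ∫ g in dG F \ B, P g ∂mG ≤ 1 - m + 5 * δ := by linarith
  have e3 : r * ∫ g in dG F ∩ B, P g ∂mG ≤ 2 := by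
    have := mul_nonneg hr.le hIC
    linarith
  have key := hAS1 Γ F c c' r r δ S1 S2 φ B D hΓ hF hc hc' hr hδ0.le hφ hn hf hf' hBm hD hBi hDi hS1 hS2 hB1 hB2
  have hII : 0 ≤ r * ∫ h in dG F ∩ D, ‖Wf (pk r c') φ h‖ ^ 2 ∂mG :=
    mul_nonneg hr.le (setIntegral_nonneg_of_ae (Eventually.of_forall fun g => sq_nonneg _))
  set Z : ℝ := r * ∫ h in dG F ∩ D, ‖Wf (pk r c') φ h‖ ^ 2 ∂mG with hZ
  have hs0 : 0 < Real.sqrt δ := Real.sqrt_pos.2 hδ0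
  have hsq : Real.sqrt δ ^ 2 = δ := Real.sq_sqrt hδ0.le
  have fin : (1 - Real.sqrt δ ^ 2) * Real.sqrt Z ≤ Real.sqrt (2 * (Real.sqrt δ ^ 2) ^ 2) +
      (1 + Real.sqrt δ ^ 2) * Real.sqrt (1 - m + 5 * Real.sqrt δ ^ 2) := by
    rw [hsq]
    refine le_trans (mul_le_mul_of_nonneg_right (by linarith : 1 - δ ≤ r * qn F c r φ) (Real.sqrt_nonneg _)) (key.trans ?_)
    refine add_le_add (Real.sqrt_le_sqrt ?_) (mul_le_mul_of_nonneg_left (Real.sqrt_le_sqrt e2) (by linarith))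
    calc r ^ 2 * S1 * S2 * (r * ∫ g in dG F ∩ B, P g ∂mG) ≤ δ ^ 2 * 2 :=
          mul_le_mul hS e3 (mul_nonneg hr.le hIB) (sq_nonneg _)
      _ = 2 * δ ^ 2 := by ring
  have res := MS1_alg (Real.sqrt δ) m (Real.sqrt Z) hs0 hδ (by linarith) hm1 (Real.sqrt_nonneg _) fin
  rw [Real.sq_sqrt hII] at res
  exact res

/-! ## the bad set -/

theorem MS1_Dm (hGLC : GLC_stmt) (h : ℍ → ℝ) (hc : Continuous h) (q T : ℝ) : MeasurableSet (Dn h q T) := by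
  have ha : Continuous aM := hGLC.2.2.2.1
  have h1 : Continuous fun p : SL(2, ℝ) × ℝ => h ((p.1 * aM (-p.2)) • I) := by
    refine hc.comp ?_
    have h2 : Continuous fun p : SL(2, ℝ) × ℝ => p.1 * aM (-p.2) := continuous_fst.mul (ha.comp continuous_snd.neg)
    exact h2.smul continuous_const
  have h3 : Continuous fun y : SL(2, ℝ) => ∫ t in (0 : ℝ)..T, h ((y * aM (-t)) • I) :=
    intervalIntegral.continuous_parametric_intervalIntegral_of_continuous' (f := fun (y : SL(2, ℝ)) (t : ℝ) => h ((y * aM (-t)) • I)) h1 0 T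
  exact (isOpen_lt h3 continuous_const).measurableSet

theorem MS1_Di (Γ : Subgroup SL(2, ℝ)) (h : ℍ → ℝ) (hi : QU.Inv Γ h) (q T : ℝ) (γ : Γ) (g : SL(2, ℝ)) :
    (γ : SL(2, ℝ)) * g ∈ Dn h q T ↔ g ∈ Dn h q T := by
  have h1 : (fun t : ℝ => h (((γ : SL(2, ℝ)) * g * aM (-t)) • I)) = fun t : ℝ => h ((g * aM (-t)) • I) := by
    funext t
    rw [mul_assoc, mul_smul]
    exact hi.2 γ _
  show (∫ t in (0 : ℝ)..T, h (((γ : SL(2, ℝ)) * g * aM (-t)) • I) < q * T) ↔ (∫ t in (0 : ℝ)..T, h ((g * aM (-t)) • I) < q * T)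
  rw [h1]

theorem MS1_n1 (M0 θ δ : ℝ) (hθ : 0 < θ) (hδ : 0 < δ) : ∃ n1 : ℕ, 1 ≤ n1 ∧ ∀ n : ℕ, n1 ≤ n → M0 * Real.exp (-(3 * θ / 4) * n) ≤ δ ^ 2 := by
  have h1 : Tendsto (fun n : ℕ => M0 * Real.exp (-(3 * θ / 4) * n)) atTop (𝓝 (M0 * 0)) := by
    refine Tendsto.const_mul M0 ?_
    refine Real.tendsto_exp_atBot.comp ?_
    refine Tendsto.const_mul_atTop_of_neg (by linarith) tendsto_natCast_atTop_atTop
  rw [mul_zero] at h1
  have h2 := h1.eventually_le_const (show (0 : ℝ) < δ ^ 2 by positivity)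
  obtain ⟨N, hN⟩ := eventually_atTop.1 h2
  exact ⟨max N 1, le_max_right _ _, fun n hn => hN n ((le_max_left _ _).trans hn)⟩

theorem MS1_r2 (K B δ L0 r1 r2 r3 r4 : ℝ) (hδ : 0 < δ) : ∃ R : ℝ, 1 ≤ R ∧ r1 ≤ R ∧ r2 ≤ R ∧ r3 ≤ R ∧ r4 ≤ R ∧ ∀ r : ℝ, R ≤ r →
    L0 ≤ r ∧ Real.log L0 ≤ Real.sqrt (Real.log r) ∧ K * B * Real.exp (-Real.sqrt (Real.log r)) ≤ δ / 4 ∧ K * (Real.log r / r) ≤ δ / 4 := by
  have t1 : Tendsto (fun r : ℝ => Real.sqrt (Real.log r)) atTop atTop := Real.tendsto_sqrt_atTop.comp Real.tendsto_log_atTop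
  have t2 : Tendsto (fun r : ℝ => K * B * Real.exp (-Real.sqrt (Real.log r))) atTop (𝓝 (K * B * 0)) :=
    (Real.tendsto_exp_neg_atTop_nhds_zero.comp t1).const_mul _
  have t3 : Tendsto (fun r : ℝ => K * (Real.log r / r)) atTop (𝓝 (K * 0)) :=
    (Real.isLittleO_log_id_atTop.tendsto_div_nhds_zero).const_mul _
  rw [mul_zero] at t2 t3
  have e := (eventually_ge_atTop L0).and ((t1.eventually_ge_atTop (Real.log L0)).and
    ((t2.eventually_le_const (show (0 : ℝ) < δ / 4 by positivity)).and (t3.eventually_le_const (show (0 : ℝ) < δ / 4 by positivity))))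
  obtain ⟨R, hR⟩ := eventually_atTop.1 e
  refine ⟨max R (max 1 (max r1 (max r2 (max r3 r4)))), ?_, ?_, ?_, ?_, ?_, fun r hr => hR r ((le_max_left _ _).trans hr)⟩
  · exact (le_max_left 1 _).trans (le_max_right _ _)
  · exact (le_max_left r1 _).trans ((le_max_right 1 _).trans (le_max_right _ _))
  · exact (le_max_left r2 _).trans ((le_max_right r1 _).trans ((le_max_right 1 _).trans (le_max_right _ _)))
  · exact (le_max_left r3 _).trans ((le_max_right r2 _).trans ((le_max_right r1 _).trans ((le_max_right 1 _).trans (le_max_right _ _))))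
  · exact (le_max_right r3 _).trans ((le_max_right r2 _).trans ((le_max_right r1 _).trans ((le_max_right 1 _).trans (le_max_right _ _))))

theorem MS1_proof (hSTB : STB_stmt) (hNM3 : NM3_stmt) (hINV : INV_stmt) (hAS1 : AS1_stmt) (hAS3 : AS3_stmt)
    (hBXU : BXU_stmt) (hSS1 : SS1_stmt) (hSS2 : SS2_stmt) (hCV1 : CV1_stmt) (hFL0 : FL0_stmt) (hGFD : GFD_stmt)
    (hGBD : GBD_stmt) (hGLC : GLC_stmt) : MS1_stmt := by
  classical
  intro Γ F h β α hΓ hF hInv hCD h01 hβ hα ε hε0 hε1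
  have hnnφ : ∀ φ : ℍ → ℂ, 0 ≤ ∫ z in F, h z * ‖φ z‖ ^ 2 := fun φ =>
    setIntegral_nonneg_of_ae (Eventually.of_forall fun z => mul_nonneg (h01 z).1 (sq_nonneg _))
  have hvol : volume F < ⊤ := by
    have h1 := (hGFD Γ F hΓ hF).1
    rw [← h1.2.1]
    exact h1.2.2.1
  have hI0 : 0 ≤ ∫ z in F, h z := setIntegral_nonneg_of_ae (Eventually.of_forall fun z => (h01 z).1)
  have hI1 : ∫ z in F, h z ≤ (volume F).toReal := by
    have h1 := norm_setIntegral_le_of_norm_le_const (μ := (volume : Measure ℍ)) (s := F) (f := h) (C := 1) hvol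
      (fun z _ => by rw [Real.norm_eq_abs, abs_of_nonneg (h01 z).1]; exact (h01 z).2)
    rw [one_mul] at h1
    exact (le_abs_self _).trans h1
  set mean : ℝ := (∫ z in F, h z) / (volume F).toReal with hmean
  have hmean0 : 0 ≤ mean := div_nonneg hI0 ENNReal.toReal_nonneg
  have hmean1 : mean ≤ 1 := div_le_one_of_le₀ hI1 ENNReal.toReal_nonneg
  by_cases hq : mean - ε < 0
  · refine ⟨1, ε, 0, one_pos, hε0, le_rfl, fun n _ A _ => ⟨fun _ => 1, 1, ⟨continuous_const, fun _ _ => rfl⟩,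
      fun _ => ⟨zero_le_one, le_rfl⟩, fun _ _ => rfl, le_rfl, ?_⟩⟩
    intro r m t φ _ _ _ hm0 hm1 _ _ _
    have h1 := hnnφ φ
    have h2 : (mean - ε) * (m - ε) ≤ ε := by
      by_cases hme : m ≤ ε
      · nlinarith
      · nlinarith
    linarith
  push_neg at hq
  obtain ⟨w0, hw0, hw8, hA3⟩ := hAS3 Γ F h (mean - ε) hΓ hF hInv hCD h01 hq (by linarith) (ε / 4) (by linarith)
  obtain ⟨-, -, -, hst, hmono, hex⟩ := hSTB
  obtain ⟨⟨α0, hα0⟩, β0, hβ0⟩ := hex w0 hw0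
  have hα4 : BA (1 / 4) α := (hmono (1 / 8) (1 / 4) α (by norm_num)).2.1 hα
  have hα04 : BA (1 / 4) α0 := (hmono w0 (1 / 4) α0 (by linarith)).2.1 hα0
  have hβ04 : BB (1 / 4) β0 := (hmono w0 (1 / 4) β0 (by linarith)).2.2 hβ0
  obtain ⟨θ, C2, hθ, hC2, hS2⟩ := hSS2 Γ F h ε β0 α0 β α hΓ hF hInv h01 hε0 hβ04.1 hα04.1 hβ.1 hα4.1
  obtain ⟨a1, C1, ha1, hC1, hS1⟩ := hSS1 Γ β0 α0 β α hΓ hβ04.1 hα04.1 hβ.1 hα4.1
  obtain ⟨K, rI, hK, hrI, hI⟩ := hINV Γ F β α hΓ hF hβ hα4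
  obtain ⟨a2, ha2, ha28, hBX⟩ := hBXU Γ hΓ
  set a : ℝ := min a2 (a1 / 2) with ha
  have ha0 : 0 < a := lt_min ha2 (by linarith)
  obtain ⟨C3', hC3', hBX'⟩ := hBX a ha0 (min_le_left _ _)
  set C3 : ℝ := max C3' 1 with hC3d
  have hC3 : 1 ≤ C3 := le_max_right _ _
  have hC3le : C3' ≤ C3 := le_max_left _ _
  set δ : ℝ := min (θ / 8) ((ε / 160) ^ 2) with hδd
  have hδ0 : 0 < δ := lt_min (by linarith) (by positivity)
  have hδθ : δ ≤ θ / 8 := min_le_left _ _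
  have hδε : δ ≤ (ε / 160) ^ 2 := min_le_right _ _
  have hsδ : Real.sqrt δ ≤ ε / 160 := by
    apply Real.sqrt_le_iff.2
    exact ⟨by positivity, hδε⟩
  have hδ2 : 2 * δ ≤ ε := by nlinarith
  have hδ1 : δ ≤ 1 := by linarith
  obtain ⟨n1, hn1, hn⟩ := MS1_n1 (4 * C1 * C2 * K * C3 / δ) θ δ hθ hδ0
  refine ⟨a, δ, n1, ha0, hδ0, by linarith, ?_⟩
  intro n hnn A hA
  have hn1' : (1 : ℝ) ≤ n := by
    exact_mod_cast hn1.trans hnn
  have hn0 : (0 : ℝ) ≤ n := by linarith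
  have hK0 : 0 < K := by linarith
  obtain ⟨Ψ, Ψa, Ψn, Ψl, hSF, hΨ1, hΨn, hΨl, hΨbox, hΨsup⟩ := hBX' n A hn0
  set B : ℝ := C3 * A.card * Real.exp n with hBd
  set L0 : ℝ := 2 * K * B / δ with hL0d
  obtain ⟨rA, hrA, hA3'⟩ := hA3 w0 β0 α0 hw0 le_rfl hβ0 hα0 n (by linarith)
  have hBst : BB (1 / 4) (st (-(n : ℝ)) β0) := by
    have h1 := hst w0 (-(n : ℝ)) β0 hβ0
    refine (hmono _ (1 / 4) _ ?_).2.2 h1
    have h2 : Real.exp (-(n : ℝ)) ≤ 1 := Real.exp_le_one_iff.2 (by linarith)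
    nlinarith
  obtain ⟨rN, hrN, hN1⟩ := hNM3 Γ F α β hΓ hF hα4 hβ δ hδ0
  obtain ⟨rN', hrN', hN2⟩ := hNM3 Γ F α0 (st (-(n : ℝ)) β0) hΓ hF hα04 hBst δ hδ0
  obtain ⟨R, hR1, hRI, hRA, hRN, hRN', hR⟩ := MS1_r2 K B δ L0 rI rA rN rN' hδ0
  refine ⟨Ψ, R, hSF.i0, hΨ1, hΨbox, hR1, ?_⟩
  intro r m t φ hr hφ hnφ hm0 hm1 ht1 ht2 hyp
  have hr0 : 0 < r := by linarith
  have hpos := hnnφ φ
  by_cases hme : m < ε
  · have h1 : (mean - ε) * (m - ε) ≤ 0 := mul_nonpos_of_nonneg_of_nonpos hq (by linarith)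
    linarith
  push_neg at hme
  have hm2 : 2 * δ ≤ m := by linarith
  have hqn0 : 0 ≤ qn F (pc β α) r φ := setIntegral_nonneg_of_ae (Eventually.of_forall fun g => sq_nonneg _)
  by_cases hA0 : A = ∅
  · exfalso
    have h1 : ∀ g, Ψ g = 0 := by
      intro g
      by_contra hc
      obtain ⟨y, hy, -⟩ := hΨsup g hc
      rw [hA0] at hy
      exact absurd hy (Finset.notMem_empty y)
    have h2 : iR F (fun g => Ψ (g * aM t) * ‖pf β α r φ g‖ ^ 2) = 0 := by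
      simp only [h1, zero_mul]
      exact integral_zero _ _
    rw [h2] at hyp
    have := mul_nonneg (by linarith : 0 ≤ m - 2 * δ) hqn0
    linarith
  have hcard : (1 : ℝ) ≤ A.card := by
    exact_mod_cast Finset.card_pos.2 (Finset.nonempty_iff_ne_empty.2 hA0)
  have hE1 : 1 ≤ Real.exp (n : ℝ) := Real.one_le_exp hn0
  have hB1 : 1 ≤ B := by
    have h1 : 1 ≤ C3 * A.card := by nlinarith
    rw [hBd]
    nlinarith
  have hL01 : 1 ≤ L0 := by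
    rw [hL0d, le_div_iff₀ hδ0]
    nlinarith
  have hL00 : 0 < L0 := by linarith
  obtain ⟨q1, q2, q3, q4⟩ := hR r hr
  set X : ℝ := r / L0 with hX
  have hX1 : 1 ≤ X := by
    rw [hX, le_div_iff₀ hL00]
    linarith
  have hX0 : 0 < X := by linarith
  set t1 : ℝ := Real.log X with ht1d
  have hexp : Real.exp t1 = X := Real.exp_log hX0
  have ht1' : t1 = Real.log r - Real.log L0 := Real.log_div hr0.ne' hL00.ne'
  have hlogL : 0 ≤ Real.log L0 := Real.log_nonneg hL01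
  have hs0 : 0 ≤ Real.sqrt (Real.log r) := Real.sqrt_nonneg _
  have htt : t ≤ t1 := by linarith
  have hinv := hI r φ (hRI.trans hr) hφ Ψ Ψa Ψn Ψl B hSF (fun g => by rw [abs_of_nonneg (hΨ1 g).1]; exact (hΨ1 g).2)
    (fun g => (hΨn g).trans (by
      rw [hBd]
      exact mul_le_mul_of_nonneg_right (mul_le_mul_of_nonneg_right hC3le (by positivity)) (Real.exp_pos _).le))
    (fun g => (hΨl g).trans (by
      rw [hBd]
      exact mul_le_mul_of_nonneg_right (mul_le_mul_of_nonneg_right hC3le (by positivity)) (Real.exp_pos _).le))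
    t t1 (hs0.trans ht1) htt
  have herr : K * (B * Real.exp (-t) + (t1 + B * Real.exp t1) / r) * nn F φ ≤ δ := by
    rw [hnφ, mul_one, hexp]
    have h1 : Real.exp (-t) ≤ Real.exp (-Real.sqrt (Real.log r)) := Real.exp_le_exp.2 (by linarith)
    have h2 : K * B * Real.exp (-t) ≤ K * B * Real.exp (-Real.sqrt (Real.log r)) :=
      mul_le_mul_of_nonneg_left h1 (by positivity)
    have h3 : K * (t1 / r) ≤ K * (Real.log r / r) := by
      refine mul_le_mul_of_nonneg_left (div_le_div_of_nonneg_right (by linarith) hr0.le) hK0.le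
    have h4 : K * (B * X / r) = δ / 2 := by
      have hB0 : 0 < B := by linarith
      rw [hX, hL0d]
      field_simp
    have h5 : K * (B * Real.exp (-t) + (t1 + B * X) / r) = K * B * Real.exp (-t) + K * (t1 / r) + K * (B * X / r) := by
      rw [add_div]
      ring
    rw [h5, h4]
    linarith
  have hc1 : TB (1 / 4) (pc β α) := (hCV1.2.2 (1 / 4) α β hα4.1 hβ.1).1
  have hc2 : TB (1 / 4) (pc (st (-(n : ℝ)) β0) α0) := (hCV1.2.2 (1 / 4) α0 (st (-(n : ℝ)) β0) hα04.1 hBst.1).1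
  obtain ⟨hf1, hf2⟩ := hN1 r (hRN.trans hr)
  obtain ⟨hf1', -⟩ := hN2 r (hRN'.trans hr)
  have hqq := hf2 φ hφ
  rw [hnφ, mul_one] at hqq
  set U : ℝ := Real.exp (-(n : ℝ)) / X with hU
  have hU0 : 0 < U := div_pos (Real.exp_pos _) hX0
  have hXU : X * U ≤ 1 := by
    rw [hU, mul_div_cancel₀ _ hX0.ne']
    exact Real.exp_le_one_iff.2 (by linarith)
  have core := MS1_core hAS1 hFL0 hGFD hGBD Γ F hΓ hF (pc β α) (pc (st (-(n : ℝ)) β0) α0) hc1 hc2 r δ m t t1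
    (C1 * A.card * Real.exp (-((n : ℝ) / 2)) * U * (1 + X * Real.exp n / r))
    (C2 * Real.exp (-(θ * n)) * Real.exp ((n : ℝ) / 2) / r) φ hr0 hδ0 (hsδ.trans (by linarith)) hφ hnφ hf1 hf1' hqq Ψ hSF.i0 hΨ1
    (hinv.trans herr) hm2 hm1 hyp (Dn h (mean - ε) n) (MS1_Dm hGLC h hInv.1 _ _) (MS1_Di Γ h hInv _ _) (by positivity) (by positivity)
    ?_ (fun g => hS2 n r g hn0 (hR1.trans hr)) ?_
  · have h3 := hA3' r φ (hRA.trans hr) hφ hnφ
    set Z : ℝ := r * ∫ y in dG F ∩ Dn h (mean - ε) n, ‖pf (st (-(n : ℝ)) β0) α0 r φ y‖ ^ 2 ∂mG with hZ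
    have hZ' : Z ≤ 1 - m + 80 * Real.sqrt δ := core
    have h4 : (mean - ε) * (m - ε) ≤ (mean - ε) * (1 - ε / 4 - Z) := mul_le_mul_of_nonneg_left (by linarith) hq
    linarith
  · intro g
    set A' : Finset SL(2, ℝ) := A.image fun y => y * aM (-t1) with hA'
    have hcA : (A'.card : ℝ) ≤ A.card := by exact_mod_cast Finset.card_image_le
    have hsub : {k | g * k ∈ {g : SL(2, ℝ) | Ψ (g * aM t1) ≠ 0}} ⊆
        {k : SL(2, ℝ) | ∃ y ∈ A', ∃ γ : Γ, bq (2 * a) (2 * a * X) (2 * a * U) (y⁻¹ * (γ : SL(2, ℝ)) * (g * k))} := by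
      intro k hk
      obtain ⟨y, hy, γ, hb⟩ := hΨsup (g * k * aM t1) hk
      refine ⟨y * aM (-t1), Finset.mem_image_of_mem _ hy, γ, ?_⟩
      have h5 := MS1_box _ _ _ t1 y (g * k) γ hb hGLC.2.2.2.2.2.2.2.2.2.2.1
      rw [hexp, mul_div_assoc] at h5
      exact h5
    refine (lintegral_mono_set hsub).trans ?_
    refine (hS1 (2 * a) n r X U A' g (by linarith) ?_ hn0 (hR1.trans hr) hX1 hU0 hXU).trans ?_
    · have := min_le_right a2 (a1 / 2)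
      linarith
    · apply ENNReal.ofReal_le_ofReal
      refine mul_le_mul_of_nonneg_right ?_ (by positivity)
      refine mul_le_mul_of_nonneg_right ?_ hU0.le
      refine mul_le_mul_of_nonneg_right ?_ (Real.exp_pos _).le
      exact mul_le_mul_of_nonneg_left hcA hC1.le
  · exact MS1_schur C1 C2 C3 K δ θ A.card n r X U L0 hC1 hC2 hC3 hK hδ0 hδ1 hδθ hcard hn0 hA hr0 (hn n hnn) rfl hX hU

end Pool.Agent.MS
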